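import Pool.Agent.Helper35.SHR.Sheet2

/-!
# Row V5E: recursions of the sums over the words
-/

set_option autoImplicit false

namespace SHR
open SHQ
open scoped ENNReal

theorem v5e_D2_fix (p g : Fin 3) : ∀ y : List Bool, true ∉ y →
    (D2 p g y).1 = fix (y.map (lt p (th p g)))
  | [], _ => rfl
  | true :: y, h => absurd List.mem_cons_self h
  | false :: y, h => by
    have h' : true ∉ y := fun h1 => h (List.mem_cons_of_mem _ h1)
    simp only [D2, if_neg h', List.map_cons, fix, lt]
    rfl

theorem v5e_two {n : ℕ} (o : Om) (p g : Fin 3) (hg : g ≠ p) (X Y : Tr) (f : St n → ℝ≥0∞)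
    (s : St n) :
    ValC o s (.two g (if g + 1 = p then X else Y) (if g + 2 = p then X else Y)) f =
      kp o s * (ValC o (th p g, 0) Y f + ValC o (p, 0) X f) := by
  have h1 : (g + 1 = p ∧ g + 2 ≠ p ∧ g + 2 = th p g) ∨ (g + 1 ≠ p ∧ g + 2 = p ∧ g + 1 = th p g) := by
    revert p g
    decide
  rcases h1 with ⟨a, b, c⟩ | ⟨a, b, c⟩
  · simp only [ValC, if_pos a, if_neg b]
    rw [← c, ← a, add_comm]
  · simp only [ValC, if_neg a, if_pos b]
    rw [← c, ← b]

theorem st_V5E (hV : ST_VAL) : ST_V5E := by
  intro n z o p g f s hg
  have dec : ∀ φ : List Bool → ℝ≥0∞,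
      ∑' y, φ y = φ [] + (∑' y, φ (true :: y) + ∑' y, φ (false :: y)) := (hV n o).2.2.2.2
  have mt : ∀ y : List Bool, true ∈ true :: y := fun y => List.mem_cons_self
  have mf : ∀ y : List Bool, (true ∈ false :: y) = (true ∈ y) := fun y => by simp
  refine ⟨?_, ?_, ?_, ?_⟩
  · unfold H5
    rw [dec]
    congr 1
    · simp [fix, ValC]
    · simp only [mt, mf, if_true, tsum_zero, zero_add]
      rw [← ENNReal.tsum_mul_left, ← ENNReal.tsum_mul_left]
      refine tsum_congr fun y => ?_
      by_cases h : true ∈ y
      · simp only [if_pos h, mul_zero]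
      · simp only [if_neg h, List.length_cons, List.map_cons, fix, lt, ValC, pow_succ,
          Bool.false_eq_true, if_false]
        ring
  · unfold C5 SB
    rw [dec, mul_add, add_comm (z * (wt o s (th p g) * _))]
    have e0 : ∀ x : ℝ≥0∞, (if true ∈ ([] : List Bool) then x else 0) = 0 := fun x => by simp
    rw [e0, zero_add]
    congr 1
    · simp only [mt, if_true]
      rw [← ENNReal.tsum_mul_left, ← ENNReal.tsum_mul_left]
      refine tsum_congr fun y => ?_
      simp only [List.length_cons, List.map_cons, fix, lt, ValC, pow_succ, if_true]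
      ring
    · simp only [mf]
      rw [← ENNReal.tsum_mul_left, ← ENNReal.tsum_mul_left]
      refine tsum_congr fun y => ?_
      by_cases h : true ∈ y
      · simp only [if_pos h, List.length_cons, List.map_cons, fix, lt, ValC, pow_succ,
          Bool.false_eq_true, if_false]
        ring
      · simp only [if_neg h, mul_zero]
  · have e1 : E5 z o p g f s = 0 + (∑' y : List Bool, z ^ (y.length + 1) *
        ValC o s (D2 p g y).1 f + ∑' y : List Bool, if true ∈ y then z ^ (y.length + 1) *
          (wt o s (th p g) * ValC o (nx s (th p g)) (D2 p g y).2 f) else 0) := by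
      unfold E5
      rw [dec]
      refine congrArg₂ (· + ·) (by simp) ?_
      simp only [mt, mf, if_true, List.length_cons, D2, ValC]
    have e2 : ∑' y : List Bool, z ^ (y.length + 1) * ValC o s (D2 p g y).1 f =
        z * (A5 z o p g f s + H5 z o p g f s) := by
      unfold A5 H5
      rw [← ENNReal.tsum_add, ← ENNReal.tsum_mul_left]
      refine tsum_congr fun y => ?_
      by_cases h : true ∈ y
      · simp only [if_pos h, pow_succ, add_zero]
        ring
      · rw [v5e_D2_fix p g y h]
        simp only [if_neg h, pow_succ, zero_add]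
        ring
    have e3 : (∑' y : List Bool, if true ∈ y then z ^ (y.length + 1) *
          (wt o s (th p g) * ValC o (nx s (th p g)) (D2 p g y).2 f) else 0) =
        z * (wt o s (th p g) * E5 z o p g f (nx s (th p g))) := by
      unfold E5
      rw [← ENNReal.tsum_mul_left, ← ENNReal.tsum_mul_left]
      refine tsum_congr fun y => ?_
      by_cases h : true ∈ y
      · simp only [if_pos h, pow_succ]
        ring
      · simp only [if_neg h, mul_zero]
    rw [e1, e2, e3]
    ring
  · have e1 : A5 z o p g f s = 0 + (∑' y : List Bool, z ^ (y.length + 1) *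
        (wt o s p * ValC o (nx s p) (D2 p g y).1 f) + ∑' y : List Bool, if true ∈ y then
          z ^ (y.length + 1) * (kp o s * (ValC o (th p g, 0) (fix (y.map (lt p (th p g)))) f +
            wt o ((p, 0) : St n) (th p g) * ValC o (nx (p, 0) (th p g)) (D2 p g y).2 f))
          else 0) := by
      unfold A5
      rw [dec]
      refine congrArg₂ (· + ·) (by simp) (congrArg₂ (· + ·) ?_ ?_)
      · simp only [mt, if_true, List.length_cons, D2, ValC]
      · simp only [mf]
        refine tsum_congr fun y => ?_
        by_cases h : true ∈ y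
        · simp only [if_pos h, List.length_cons, D2]
          rw [v5e_two o p g hg]
          simp only [ValC]
        · simp only [if_neg h]
    have e2 : ∑' y : List Bool, z ^ (y.length + 1) * (wt o s p *
          ValC o (nx s p) (D2 p g y).1 f) =
        z * (wt o s p * (A5 z o p g f (nx s p) + H5 z o p g f (nx s p))) := by
      unfold A5 H5
      rw [← ENNReal.tsum_add, ← ENNReal.tsum_mul_left, ← ENNReal.tsum_mul_left]
      refine tsum_congr fun y => ?_
      by_cases h : true ∈ y
      · simp only [if_pos h, pow_succ, add_zero]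
        ring
      · rw [v5e_D2_fix p g y h]
        simp only [if_neg h, pow_succ, zero_add]
        ring
    have e3 : (∑' y : List Bool, if true ∈ y then
          z ^ (y.length + 1) * (kp o s * (ValC o (th p g, 0) (fix (y.map (lt p (th p g)))) f +
            wt o ((p, 0) : St n) (th p g) * ValC o (nx (p, 0) (th p g)) (D2 p g y).2 f))
          else 0) =
        z * (kp o s * (C5 z o p g f (th p g, 0) + wt o ((p, 0) : St n) (th p g) *
          E5 z o p g f (nx (p, 0) (th p g)))) := by
      unfold C5 E5
      rw [← ENNReal.tsum_mul_left, ← ENNReal.tsum_add, ← ENNReal.tsum_mul_left,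
        ← ENNReal.tsum_mul_left]
      refine tsum_congr fun y => ?_
      by_cases h : true ∈ y
      · simp only [if_pos h, pow_succ]
        ring
      · simp only [if_neg h, mul_zero, add_zero]
    rw [e1, e2, e3]
    ring

end SHR
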